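import Pool.Agent.K7.H96.CYC.Const

/-! # Sites whose potential is in a given set -/

set_option autoImplicit false

open MeasureTheory Filter Topology ProbabilityTheory
open scoped BigOperators ENNReal NNReal InnerProductSpace ComplexConjugate

namespace Pool.Agent.K7.H96.CYC

open Pool.Agent.H5R2.NB Pool.Agent.K7.H96.NBT InnerProductSpace

section comb

variable {I X : Type} [NormedAddCommGroup X] [NormedSpace ℂ X]

/-- linear combinations with coefficients in a countable dense set -/
noncomputable def comb (g : I → X) : List (ℕ × I) → X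
  | [] => 0
  | p :: l => TopologicalSpace.denseSeq ℂ p.1 • g p.2 + comb g l

theorem comb_append (g : I → X) (l l' : List (ℕ × I)) :
    comb g (l ++ l') = comb g l + comb g l' := by
  induction l with
  | nil => simp [comb]
  | cons p l ih => simp only [List.cons_append, comb, ih, add_assoc]

theorem coef (a : ℂ) (y : X) {ε : ℝ} (hε : 0 < ε) :
    ∃ k : ℕ, ‖a • y - TopologicalSpace.denseSeq ℂ k • y‖ < ε := by
  obtain ⟨k, hk⟩ := (TopologicalSpace.denseRange_denseSeq ℂ).exists_dist_lt a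
    (show 0 < ε / (‖y‖ + 1) by positivity)
  refine ⟨k, ?_⟩
  rw [← sub_smul, norm_smul, ← dist_eq_norm]
  have h1 : dist a (TopologicalSpace.denseSeq ℂ k) * (‖y‖ + 1) < ε := by
    rwa [lt_div_iff₀ (by positivity)] at hk
  have h2 : (0 : ℝ) ≤ dist a (TopologicalSpace.denseSeq ℂ k) := dist_nonneg
  nlinarith [norm_nonneg y]

theorem comb_smul (g : I → X) (a : ℂ) (l : List (ℕ × I)) : ∀ ε : ℝ, 0 < ε →
    ∃ l' : List (ℕ × I), ‖a • comb g l - comb g l'‖ < ε := by
  induction l with
  | nil => exact fun ε hε => ⟨[], by simpa [comb] using hε⟩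
  | cons p l ih =>
    intro ε hε
    obtain ⟨l', hl'⟩ := ih (ε / 2) (by positivity)
    obtain ⟨k, hk⟩ := coef (a * TopologicalSpace.denseSeq ℂ p.1) (g p.2) (half_pos hε)
    refine ⟨(k, p.2) :: l', ?_⟩
    simp only [comb]
    have e : a • (TopologicalSpace.denseSeq ℂ p.1 • g p.2 + comb g l) -
        (TopologicalSpace.denseSeq ℂ k • g p.2 + comb g l') =
        ((a * TopologicalSpace.denseSeq ℂ p.1) • g p.2 - TopologicalSpace.denseSeq ℂ k • g p.2) +
          (a • comb g l - comb g l') := by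
      rw [smul_add, smul_smul]
      abel
    rw [e]
    refine (norm_add_le _ _).trans_lt ?_
    linarith

theorem comb_dense (g : I → X) {y : X} (hy : y ∈ Submodule.span ℂ (Set.range g)) :
    ∀ ε : ℝ, 0 < ε → ∃ l : List (ℕ × I), ‖y - comb g l‖ < ε := by
  induction hy using Submodule.span_induction with
  | mem y hy =>
    obtain ⟨i, rfl⟩ := hy
    intro ε hε
    obtain ⟨k, hk⟩ := coef 1 (g i) hε
    refine ⟨[(k, i)], ?_⟩
    simpa [comb] using hk
  | zero => exact fun ε hε => ⟨[], by simpa [comb] using hε⟩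
  | add a b _ _ ha hb =>
    intro ε hε
    obtain ⟨l, hl⟩ := ha (ε / 2) (by positivity)
    obtain ⟨l', hl'⟩ := hb (ε / 2) (by positivity)
    refine ⟨l ++ l', ?_⟩
    rw [comb_append]
    have e : a + b - (comb g l + comb g l') = (a - comb g l) + (b - comb g l') := by abel
    rw [e]
    refine (norm_add_le _ _).trans_lt ?_
    linarith
  | smul a y _ hy =>
    intro ε hε
    obtain ⟨l, hl⟩ := hy (ε / 2 / (‖a‖ + 1)) (by positivity)
    obtain ⟨l', hl'⟩ := comb_smul g a l (ε / 2) (by positivity)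
    refine ⟨l', ?_⟩
    have e : a • y - comb g l' = a • (y - comb g l) + (a • comb g l - comb g l') := by
      rw [smul_sub]
      abel
    rw [e]
    refine (norm_add_le _ _).trans_lt ?_
    have h1 : ‖a • (y - comb g l)‖ ≤ ε / 2 := by
      rw [norm_smul]
      rw [lt_div_iff₀ (by positivity)] at hl
      nlinarith [norm_nonneg a, norm_nonneg (y - comb g l)]
    linarith

theorem comb_mem (g : I → X) (l : List (ℕ × I)) :
    comb g l ∈ Submodule.span ℂ (Set.range g) := by
  induction l with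
  | nil => exact Submodule.zero_mem _
  | cons p l ih =>
    exact Submodule.add_mem _ (Submodule.smul_mem _ _ (Submodule.subset_span ⟨p.2, rfl⟩)) ih

theorem comb_meas {Ω : Type} [MeasurableSpace Ω] (g : I → Ω → X)
    (hg : ∀ i, StronglyMeasurable (g i)) (l : List (ℕ × I)) :
    StronglyMeasurable fun ω => comb (fun i => g i ω) l := by
  induction l with
  | nil => exact stronglyMeasurable_const
  | cons p l ih => exact ((hg p.2).const_smul _).add ih

end comb

variable {d : ℕ}

/-- the limit of the averages of the projections along the orbit of `δ_x` -/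
noncomputable def KK (W : UG (L2 (Site d))) (x : Site d) : L2 (Site d) →L[ℂ] L2 (Site d) :=
  Classical.choose (exists_K W (dl x))

theorem KK_lim (W : UG (L2 (Site d))) (x : Site d) (φ : L2 (Site d)) :
    Tendsto (fun N => av W (dl x) N φ) atTop (𝓝 (KK W x φ)) :=
  ((ContinuousLinearMap.apply ℂ (L2 (Site d)) φ).continuous.tendsto (KK W x)).comp
    (Classical.choose_spec (exists_K W (dl x))).1

theorem KK_symm (W : UG (L2 (Site d))) (x : Site d) (φ ψ : L2 (Site d)) :
    ⟪KK W x φ, ψ⟫_ℂ = ⟪φ, KK W x ψ⟫_ℂ :=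
  (Classical.choose_spec (exists_K W (dl x))).2.2.1 φ ψ

open Classical in
/-- the vectors -/
noncomputable def gg (ev : (Site d → ℝ) → UG (L2 (Site d))) (J : Set ℝ) :
    (Site d × Site d) ⊕ (Site d × ℚ) → (Site d → ℝ) → L2 (Site d)
  | Sum.inl p => fun V => KK (ev V) p.1 (dl p.2)
  | Sum.inr p => fun V => if V p.1 ∈ J then (ev V).U (p.2 : ℝ) (dl p.1) else 0

theorem gg_meas {c : ℝ} {ev : (Site d → ℝ) → UG (L2 (Site d))}
    (hev : ∀ V, IsGrp c V (ev V)) {J : Set ℝ} (hJ : MeasurableSet J)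
    (i : (Site d × Site d) ⊕ (Site d × ℚ)) : StronglyMeasurable (gg ev J i) := by
  rcases i with p | p
  · refine stronglyMeasurable_of_tendsto atTop
      (f := fun N V => av (ev V) (dl p.1) N (dl p.2)) (fun N => ?_) ?_
    · exact (av_cont hev (dl p.1) (dl p.2) N).stronglyMeasurable
    · rw [tendsto_pi_nhds]
      exact fun V => KK_lim (ev V) p.1 (dl p.2)
  · have hU := ALL.a_CV d c ev hev
    have h1 : Continuous fun V => (ev V).U (p.2 : ℝ) (dl p.1) :=
      hU.comp (by fun_prop : Continuous fun V : Site d → ℝ =>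
        ((V, (p.2 : ℝ), dl p.1) : (Site d → ℝ) × ℝ × L2 (Site d)))
    exact StronglyMeasurable.ite (hJ.preimage (measurable_pi_apply p.1)) h1.stronglyMeasurable
      stronglyMeasurable_const

/-- the event that the vectors span everything -/
def EE (ev : (Site d → ℝ) → UG (L2 (Site d))) (J : Set ℝ) : Set (Site d → ℝ) :=
  {V | ∀ (z : Site d) (m : ℕ), ∃ l : List (ℕ × ((Site d × Site d) ⊕ (Site d × ℚ))),
    ‖dl z - comb (fun i => gg ev J i V) l‖ < 1 / ((m : ℝ) + 1)}

theorem EE_meas {c : ℝ} {ev : (Site d → ℝ) → UG (L2 (Site d))}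
    (hev : ∀ V, IsGrp c V (ev V)) {J : Set ℝ} (hJ : MeasurableSet J) :
    MeasurableSet (EE ev J) := by
  have e : EE ev J = ⋂ (z : Site d) (m : ℕ),
      ⋃ l : List (ℕ × ((Site d × Site d) ⊕ (Site d × ℚ))),
        {V | ‖dl z - comb (fun i => gg ev J i V) l‖ < 1 / ((m : ℝ) + 1)} := by
    ext V
    simp only [EE, Set.mem_iInter, Set.mem_iUnion, Set.mem_ofPred_eq]
  rw [e]
  refine MeasurableSet.iInter fun z => MeasurableSet.iInter fun m => MeasurableSet.iUnion fun l => ?_
  exact measurableSet_lt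
    ((stronglyMeasurable_const.sub (comb_meas _ (gg_meas hev hJ) l)).norm.measurable)
    measurable_const

theorem EE_of {ev : (Site d → ℝ) → UG (L2 (Site d))} {J : Set ℝ} {V : Site d → ℝ}
    (h : ∀ φ : L2 (Site d), (∀ x : Site d, Tendsto (fun N => av (ev V) (dl x) N φ) atTop (𝓝 0)) →
      (∀ x : Site d, V x ∈ J → ∀ t : ℝ, ((ev V).U t φ) x = 0) → φ = 0) : V ∈ EE ev J := by
  set S : Submodule ℂ (L2 (Site d)) := Submodule.span ℂ (Set.range fun i => gg ev J i V) with hS
  set M := S.topologicalClosure with hM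
  have : CompleteSpace M := (Submodule.isClosed_topologicalClosure _).completeSpace_coe
  have hall : ∀ u : L2 (Site d), u ∈ M := by
    intro u
    set φ := u - M.starProjection u with hφ
    have horth : ∀ i, ⟪gg ev J i V, φ⟫_ℂ = 0 := by
      intro i
      have h3 : gg ev J i V ∈ M :=
        Submodule.le_topologicalClosure _ (Submodule.subset_span ⟨i, rfl⟩)
      have h4 := M.starProjection_inner_eq_zero u _ h3
      rw [← inner_conj_symm, hφ, h4, map_zero]
    have h1 : φ = 0 := by
      refine h φ (fun x => ?_) fun x hx => ?_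
      · have h2 : KK (ev V) x φ = 0 := by
          ext y
          rw [← ANTI.dl_inner y, ← KK_symm]
          exact horth (Sum.inl (x, y))
        have := KK_lim (ev V) x φ
        rwa [h2] at this
      · have h2 : ∀ q : ℚ, ((ev V).U (q : ℝ) φ) x = 0 := by
          intro q
          have h3 := horth (Sum.inr (x, -q))
          simp only [gg, if_pos hx] at h3
          rw [ANTI.inner_adj, ANTI.dl_inner] at h3
          simpa using h3
        have hc : Continuous fun t : ℝ => ((ev V).U t φ) x := by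
          have h5 : (fun t : ℝ => ((ev V).U t φ) x) = fun t => ⟪dl x, (ev V).U t φ⟫_ℂ := by
            funext t
            rw [ANTI.dl_inner]
          rw [h5]
          exact continuous_const.inner ((ev V).cont' φ)
        have hd := Rat.denseRange_cast (𝕜 := ℝ)
        have h6 : (fun t : ℝ => ((ev V).U t φ) x) = fun _ => 0 :=
          hd.equalizer hc continuous_const (funext h2)
        exact fun t => congrFun h6 t
    have h3 : M.starProjection u ∈ M := M.starProjection_apply_mem u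
    rw [← sub_eq_zero.1 h1] at h3
    exact h3
  intro z m
  have hz : dl z ∈ closure (S : Set (L2 (Site d))) := hall (dl z)
  obtain ⟨y, hy, hy2⟩ := Metric.mem_closure_iff.1 hz (1 / ((m : ℝ) + 1) / 2) (by positivity)
  obtain ⟨l, hl⟩ := comb_dense (fun i => gg ev J i V) hy (1 / ((m : ℝ) + 1) / 2) (by positivity)
  refine ⟨l, ?_⟩
  rw [dist_eq_norm] at hy2
  have e : dl z - comb (fun i => gg ev J i V) l = (dl z - y) +
      (y - comb (fun i => gg ev J i V) l) := by abel
  rw [e]
  refine (norm_add_le _ _).trans_lt ?_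
  linarith

theorem of_EE {ev : (Site d → ℝ) → UG (L2 (Site d))} {J : Set ℝ} {V : Site d → ℝ}
    (h : V ∈ EE ev J) (φ : L2 (Site d))
    (h1 : ∀ x : Site d, Tendsto (fun N => av (ev V) (dl x) N φ) atTop (𝓝 0))
    (h2 : ∀ x : Site d, V x ∈ J → ∀ t : ℝ, ((ev V).U t φ) x = 0) : φ = 0 := by
  have horth : ∀ i, ⟪gg ev J i V, φ⟫_ℂ = 0 := by
    rintro (p | p)
    · have h3 : KK (ev V) p.1 φ = 0 := tendsto_nhds_unique (KK_lim (ev V) p.1 φ) (h1 p.1)
      show ⟪KK (ev V) p.1 (dl p.2), φ⟫_ℂ = 0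
      rw [KK_symm, h3, inner_zero_right]
    · by_cases hx : V p.1 ∈ J
      · simp only [gg, if_pos hx]
        rw [ANTI.inner_adj, ANTI.dl_inner, h2 p.1 hx]
      · simp only [gg, if_neg hx]
        rw [inner_zero_left]
  have hspan : ∀ w ∈ Submodule.span ℂ (Set.range fun i => gg ev J i V), ⟪w, φ⟫_ℂ = 0 := by
    intro w hw
    induction hw using Submodule.span_induction with
    | mem y hy =>
      obtain ⟨i, rfl⟩ := hy
      exact horth i
    | zero => rw [inner_zero_left]
    | add a b _ _ ha hb => rw [inner_add_left, ha, hb, add_zero]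
    | smul c a _ ha => rw [inner_smul_left, ha, mul_zero]
  ext z
  have h4 : IsClosed {w : L2 (Site d) | ⟪w, φ⟫_ℂ = 0} :=
    isClosed_eq (by fun_prop) continuous_const
  have h5 : dl z ∈ closure (Submodule.span ℂ (Set.range fun i => gg ev J i V) :
      Set (L2 (Site d))) := by
    rw [Metric.mem_closure_iff]
    intro ε hε
    obtain ⟨m, hm⟩ := exists_nat_one_div_lt hε
    obtain ⟨l, hl⟩ := h z m
    refine ⟨_, comb_mem (fun i => gg ev J i V) l, ?_⟩
    rw [dist_eq_norm]
    exact hl.trans hm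
  have h6 : ⟪dl z, φ⟫_ℂ = 0 := closure_minimal (fun w hw => hspan w hw) h4 h5
  rwa [ANTI.dl_inner] at h6

/-- no state of the continuous subspace avoids the sites where the potential is in `J` -/
theorem res_key {c : ℝ} {ev : (Site d → ℝ) → UG (L2 (Site d))}
    (hev : ∀ V, IsGrp c V (ev V)) (ν : Measure ℝ) [IsProbabilityMeasure ν]
    (J : Set ℝ) (hJ : MeasurableSet J) (hp : ν J ≠ 0) :
    ∀ᵐ V ∂(PP d ν), ∀ φ : L2 (Site d),
      (∀ x : Site d, Tendsto (fun N => av (ev V) (dl x) N φ) atTop (𝓝 0)) →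
      (∀ x : Site d, V x ∈ J → ∀ t : ℝ, ((ev V).U t φ) x = 0) → φ = 0 := by
  classical
  by_cases h0 : ν Jᶜ = 0
  · have hx : ∀ᵐ V ∂(PP d ν), ∀ x : Site d, V x ∈ J := by
      rw [ae_all_iff]
      intro x
      have h1 : ∀ᵐ κ ∂ν, κ ∈ J := by
        have := measure_eq_zero_iff_ae_notMem.1 h0
        filter_upwards [this] with r hr
        exact Set.notMem_compl_iff.1 hr
      have h2 : MeasurePreserving (fun V : Site d → ℝ => V x) (PP d ν) ν :=
        measurePreserving_eval_infinitePi (fun _ : Site d => ν) x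
      exact h2.quasiMeasurePreserving.ae h1
    filter_upwards [hx] with V hV φ _ h2
    ext x
    have := h2 x (hV x) 0
    rwa [UG.zero'] at this
  have hprob : IsProbabilityMeasure (cond ν Jᶜ) := cond_isProbabilityMeasure h0
  have hN := hJ.compl
  set f : ℝ × ℝ → ℝ := fun p => if p.2 ∈ Jᶜ then p.1 else p.2 with hf
  have hfm : Measurable f := Measurable.ite (measurable_snd hN) measurable_fst measurable_snd
  set Φ : (Site d → ℝ) × (Site d → ℝ) → (Site d → ℝ) := fun p x => f (p.1 x, p.2 x) with hΦ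
  have hΦm : Measurable Φ := measurable_pi_iff.2 fun x => hfm.comp (by fun_prop)
  have hmap : ((PP d (cond ν Jᶜ)).prod (PP d ν)).map Φ = PP d ν := by
    unfold PP
    rw [zip_law (cond ν Jᶜ) ν f hfm]
    have : ((cond ν Jᶜ).prod ν).map f = ν := mix_law ν Jᶜ hN h0
    simp only [this]
  obtain ⟨Mk, hMk, hsp⟩ := spread hev (cond ν Jᶜ)
  have h2 : ∀ᵐ W ∂(PP d (cond ν Jᶜ)), ∀ᵐ U ∂(PP d ν), ∀ φ : L2 (Site d),
      (∀ x : Site d, Tendsto (fun N => av (ev W) (dl x) N φ) atTop (𝓝 0)) →
      (∀ x : Site d, U x ∉ Jᶜ → ∀ n : ℕ, ((ev W).U (-(n : ℝ)) φ) x = 0) → φ = 0 := by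
    filter_upwards [hsp] with W hW
    exact gen (ev W) Mk hMk hW ν Jᶜ hN (by rwa [compl_compl])
  have h3 : ∀ᵐ W ∂(PP d (cond ν Jᶜ)), ∀ᵐ U ∂(PP d ν), Φ (W, U) ∈ EE ev J := by
    filter_upwards [h2] with W hW2
    filter_upwards [hW2] with U hU2
    set V := Φ (W, U) with hV
    refine EE_of fun φ hφ1 hφ2 => ?_
    have hVx : ∀ x : Site d, U x ∉ Jᶜ → V x = U x := by
      intro x hx
      simp only [hV, hΦ, hf]
      rw [if_neg hx]
    have horb : ∀ t : ℝ, (ev W).U t φ = (ev V).U t φ := by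
      refine orbit_eq (hev V) (hev W) fun x hx t => ?_
      have hUx : U x ∉ Jᶜ := by
        intro hUx
        apply hx
        simp only [hV, hΦ, hf]
        rw [if_pos hUx]
      refine hφ2 x ?_ t
      rw [hVx x hUx]
      exact Set.notMem_compl_iff.1 hUx
    refine hU2 φ (cs_transfer horb hφ1) fun x hx n => ?_
    rw [horb]
    refine hφ2 x ?_ _
    rw [hVx x hx]
    exact Set.notMem_compl_iff.1 hx
  have h4 : ∀ᵐ p ∂((PP d (cond ν Jᶜ)).prod (PP d ν)), Φ p ∈ EE ev J :=
    (Measure.ae_prod_iff_ae_ae (hΦm (EE_meas hev hJ))).2 h3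
  have h5 : ∀ᵐ V ∂(PP d ν), V ∈ EE ev J := by
    rw [← hmap]
    exact (ae_map_iff hΦm.aemeasurable (EE_meas hev hJ)).2 h4
  filter_upwards [h5] with V hV φ h6 h7
  exact of_EE hV φ h6 h7

/-- **the sites where the potential is in `J`** -/
theorem res_case {c : ℝ} {ev : (Site d → ℝ) → UG (L2 (Site d))}
    (hev : ∀ V, IsGrp c V (ev V)) (ν : Measure ℝ) [IsProbabilityMeasure ν]
    (J : Set ℝ) (hJ : MeasurableSet J) (hp : ν J ≠ 0) :
    ∀ᵐ V ∂(PP d ν), ∀ u : L2 (Site d),
      (∀ ψ, TrueEig (ev V) ψ → ⟪ψ, u⟫_ℂ = 0) → u ∈ closure (Submodule.span ℂ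
      {y : L2 (Site d) | ∃ x ∈ {x : Site d | V x ∈ J}, ∃ t : ℝ, y = (ev V).U t (dl x)} :
        Set (L2 (Site d))) := by
  filter_upwards [res_key hev ν J hJ hp] with V hV u hu
  exact mem_span (ev V) _ (fun φ h1 h2 => hV φ h1 fun x hx => h2 x hx) hu

end Pool.Agent.K7.H96.CYC
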