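import Pool.Agent.K7.H96.CYC.Pt

/-! # Potentials with one value outside of a random set -/

set_option autoImplicit false

open MeasureTheory Filter Topology
open scoped BigOperators ENNReal NNReal InnerProductSpace ComplexConjugate

namespace Pool.Agent.K7.H96.CYC

open Pool.Agent.H5R2.NB Pool.Agent.K7.H96.NBT InnerProductSpace

variable {d : ℕ}

/-- if no state avoids a set of sites for all times, the orbits of these sites span everything -/
theorem all_span (W : UG (L2 (Site d))) (A : Set (Site d))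
    (h : ∀ φ : L2 (Site d), (∀ x ∈ A, ∀ t : ℝ, (W.U t φ) x = 0) → φ = 0) (u : L2 (Site d)) :
    u ∈ closure (Submodule.span ℂ {y : L2 (Site d) | ∃ x ∈ A, ∃ t : ℝ, y = W.U t (dl x)} :
      Set (L2 (Site d))) := by
  set S : Submodule ℂ (L2 (Site d)) :=
    Submodule.span ℂ {y : L2 (Site d) | ∃ x ∈ A, ∃ t : ℝ, y = W.U t (dl x)} with hS
  set M := S.topologicalClosure with hM
  have : CompleteSpace M := (Submodule.isClosed_topologicalClosure _).completeSpace_coe
  have h1 : u - M.starProjection u = 0 := by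
    refine h _ fun x hx t => ?_
    have h3 : W.U (-t) (dl x) ∈ M :=
      Submodule.le_topologicalClosure _ (Submodule.subset_span ⟨x, hx, -t, rfl⟩)
    have h4 := M.starProjection_inner_eq_zero u _ h3
    rw [← inner_conj_symm, ANTI.inner_adj, neg_neg, ANTI.dl_inner] at h4
    exact (map_eq_zero _).1 h4
  have h3 : M.starProjection u ∈ M := M.starProjection_apply_mem u
  rw [← sub_eq_zero.1 h1] at h3
  exact h3

/-- in a constant potential the velocity is conserved -/
theorem vel_comm {c : ℝ} {ev : (Site d → ℝ) → UG (L2 (Site d))} (hev : ∀ V, IsGrp c V (ev V))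
    (κ : ℝ) {j : Fin d} {v : L2 (Site d) →L[ℂ] L2 (Site d)} (hv : IsVel c j v) (t : ℝ)
    (u : L2 (Site d)) : v ((ev fun _ => κ).U t u) = (ev fun _ => κ).U t (v u) := by
  obtain ⟨Sp, hp⟩ := (t_OPS d).1 (Pi.single j 1)
  obtain ⟨Sm, hm⟩ := (t_OPS d).1 (-Pi.single j 1)
  have hvS : ∀ w, v w = (Complex.I * c) • (Sp w - Sm w) := by
    intro w
    ext x
    rw [hv, lp.coeFn_smul, Pi.smul_apply, lp.coeFn_sub, Pi.sub_apply, hp, hm, smul_eq_mul,
      sub_eq_add_neg]
    rfl
  have h1 := ALL.a_COV d c ev hev _ Sp hp (fun _ => κ) t u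
  have h2 := ALL.a_COV d c ev hev _ Sm hm (fun _ => κ) t u
  simp only at h1 h2
  rw [hvS, hvS, map_smul, map_sub, h1, h2]

theorem avP_const {c : ℝ} {ev : (Site d → ℝ) → UG (L2 (Site d))} (hev : ∀ V, IsGrp c V (ev V))
    (κ : ℝ) {j : Fin d} {v : L2 (Site d) →L[ℂ] L2 (Site d)} (hv : IsVel c j v) :
    Good (ev fun _ => κ) v (fun k => k + 1) v := by
  intro x
  have h1 : ∀ k : ℕ, avP (ev fun _ => κ) v (k + 1) x = v x := by
    intro k
    unfold avP
    have : ∀ s : ℝ, (ev fun _ => κ).U (-s) (v ((ev fun _ => κ).U s x)) = v x := by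
      intro s
      rw [vel_comm hev κ hv, ← UG.add', neg_add_cancel, UG.zero']
    simp only [this]
    rw [intervalIntegral.integral_const, sub_zero, ← Complex.coe_smul, smul_smul]
    push_cast
    rw [inv_mul_cancel₀ (by exact_mod_cast Nat.succ_ne_zero k), one_smul]
  have h2 : ∀ k : ℕ, avM (ev fun _ => κ) v (k + 1) x = v x := by
    intro k
    unfold avM
    have : ∀ s : ℝ, (ev fun _ => κ).U s (v ((ev fun _ => κ).U (-s) x)) = v x := by
      intro s
      rw [vel_comm hev κ hv, ← UG.add', add_neg_cancel, UG.zero']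
    simp only [this]
    rw [intervalIntegral.integral_const, sub_zero, ← Complex.coe_smul, smul_smul]
    push_cast
    rw [inv_mul_cancel₀ (by exact_mod_cast Nat.succ_ne_zero k), one_smul]
  simp only [h1, h2]
  exact ⟨tendsto_const_nhds, tendsto_const_nhds⟩

/-- a vector of `ℓ²` which is periodic vanishes -/
theorem periodic_zero {φ : L2 (Site d)} {z : Site d} (hz : z ≠ 0)
    (h : ∀ x : Site d, φ (x + z) = φ x) : φ = 0 := by
  ext x
  have hs : Summable fun y : Site d => ‖φ y‖ ^ 2 := by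
    have := (lp.hasSum_norm (p := 2) (by norm_num) φ).summable
    simpa using this
  have hinj : Function.Injective fun n : ℕ => x + n • z := by
    intro m n hmn
    have h1 : m • z = n • z := add_left_cancel hmn
    obtain ⟨i, hi⟩ : ∃ i, z i ≠ 0 := by
      by_contra hcon
      push Not at hcon
      exact hz (funext hcon)
    have h2 := congrFun h1 i
    simp only [Pi.smul_apply, nsmul_eq_mul] at h2
    exact_mod_cast mul_right_cancel₀ hi h2
  have hs2 := hs.comp_injective hinj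
  have h3 : ∀ n : ℕ, φ (x + n • z) = φ x := by
    intro n
    induction n with
    | zero => simp
    | succ n ih => rw [succ_nsmul, ← add_assoc, h, ih]
  have h4 : Tendsto (fun n : ℕ => ‖φ (x + n • z)‖ ^ 2) atTop (𝓝 0) := hs2.tendsto_atTop_zero
  simp only [h3] at h4
  have h5 := tendsto_nhds_unique h4 tendsto_const_nhds
  have h6 : ‖φ x‖ = 0 := by
    have : ‖φ x‖ ^ 2 = 0 := h5.symm
    exact pow_eq_zero_iff two_ne_zero |>.1 this
  exact norm_eq_zero.1 h6

/-- a constant potential has no eigenvectors -/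
theorem const_cont {c : ℝ} (hc : c ≠ 0) {ev : (Site d → ℝ) → UG (L2 (Site d))}
    (hev : ∀ V, IsGrp c V (ev V)) (hd : 1 ≤ d) (κ : ℝ) (e φ : L2 (Site d)) :
    Tendsto (fun N => av (ev fun _ => κ) e N φ) atTop (𝓝 0) := by
  refine cont_of_orth _ (fun ψ z hψ => ?_) e
  have j : Fin d := ⟨0, hd⟩
  obtain ⟨v, hv⟩ := (t_OPS d).2.2 c j
  have h1 := eig_zero (hev fun _ => κ) hv (tendsto_add_atTop_nat 1) (avP_const hev κ hv) hψ
  have h2 : ψ = 0 := by
    refine periodic_zero (z := Pi.single j 2) (by simp) fun x => ?_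
    have h3 : (v ψ) (x + Pi.single j 1) = 0 := by rw [h1]; rfl
    rw [hv] at h3
    have h4 : Complex.I * (c : ℂ) ≠ 0 := mul_ne_zero Complex.I_ne_zero (by exact_mod_cast hc)
    have h5 := (mul_eq_zero.1 h3).resolve_left h4
    have e1 : x + Pi.single j 1 + Pi.single j 1 = x + Pi.single j (2 : ℤ) := by
      rw [add_assoc, ← Pi.single_add]
      norm_num
    have e2 : x + Pi.single j 1 - Pi.single j 1 = x := by simp
    rw [e1, e2] at h5
    exact sub_eq_zero.1 h5
  rw [h2, inner_zero_left]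

/-- the spreading property of the constant potential -/
theorem const_spread {c : ℝ} {ev : (Site d → ℝ) → UG (L2 (Site d))}
    (hev : ∀ V, IsGrp c V (ev V)) (κ : ℝ) :
    ∃ Nk : ℕ → ℕ, StrictMono Nk ∧ ∀ φ : L2 (Site d),
      (∀ x : Site d, Tendsto (fun N => av (ev fun _ => κ) (dl x) N φ) atTop (𝓝 0)) →
        Tendsto (fun k => ‖GN (ev fun _ => κ) (Nk k) φ‖) atTop (𝓝 0) := by
  obtain ⟨Nk, h1, h2⟩ := spread hev (Measure.dirac κ)
  refine ⟨Nk, h1, ?_⟩
  have h3 : ∀ᵐ V ∂(PP d (Measure.dirac κ)), ∀ x : Site d, V x = κ := by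
    rw [ae_all_iff]
    intro x
    have h1 : ∀ᵐ r ∂(Measure.dirac κ), r = κ := by
      rw [ae_dirac_eq]
      exact rfl
    have h2 : MeasurePreserving (fun V : Site d → ℝ => V x) (PP d (Measure.dirac κ))
        (Measure.dirac κ) := measurePreserving_eval_infinitePi (fun _ : Site d => Measure.dirac κ) x
    exact h2.quasiMeasurePreserving.ae h1
  have hP : IsProbabilityMeasure (PP d (Measure.dirac κ)) := by
    unfold PP
    infer_instance
  obtain ⟨V, hV1, hV2⟩ := (h2.and h3).exists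
  have : V = fun _ => κ := funext hV2
  rwa [this] at hV1

/-- **cyclic families of sites** if the potential has only one value at the other sites -/
theorem const_case {c : ℝ} (hc : c ≠ 0) {ev : (Site d → ℝ) → UG (L2 (Site d))}
    (hev : ∀ V, IsGrp c V (ev V)) (hd : 1 ≤ d) (ν : Measure ℝ) [IsProbabilityMeasure ν]
    (κ : ℝ) (J : Set ℝ) (hJ : MeasurableSet J) (h0 : ν J ≠ 0) (h1 : ∀ᵐ r ∂ν, r ∈ J ∨ r = κ) :
    ∀ᵐ V ∂(PP d ν), ∀ u : L2 (Site d), u ∈ closure (Submodule.span ℂ
      {y : L2 (Site d) | ∃ x ∈ {x : Site d | V x ∈ J}, ∃ t : ℝ, y = (ev V).U t (dl x)} :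
        Set (L2 (Site d))) := by
  obtain ⟨Nk, hNk, hsp⟩ := const_spread hev κ
  have h2 := gen (ev fun _ => κ) Nk hNk hsp ν Jᶜ hJ.compl (by rwa [compl_compl])
  have h3 : ∀ᵐ V ∂(PP d ν), ∀ x : Site d, V x ∈ J ∨ V x = κ := by
    rw [ae_all_iff]
    intro x
    have h2 : MeasurePreserving (fun V : Site d → ℝ => V x) (PP d ν) ν :=
      measurePreserving_eval_infinitePi (fun _ : Site d => ν) x
    exact h2.quasiMeasurePreserving.ae h1
  filter_upwards [h2, h3] with V hV1 hV2 u
  refine all_span (ev V) _ (fun φ hφ => ?_) u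
  have horb : ∀ t : ℝ, (ev fun _ => κ).U t φ = (ev V).U t φ := by
    refine orbit_eq (hev V) (hev _) fun x hx t => ?_
    exact hφ x ((hV2 x).resolve_right hx) t
  refine hV1 φ (fun x => const_cont hc hev hd κ (dl x) φ) fun x hx n => ?_
  rw [horb]
  exact hφ x (Set.notMem_compl_iff.1 hx) _

/-- independent random sets of sites -/
theorem thin_case {c : ℝ} {ev : (Site d → ℝ) → UG (L2 (Site d))}
    (hev : ∀ V, IsGrp c V (ev V)) (ν ρ : Measure ℝ) [IsProbabilityMeasure ν]
    [IsProbabilityMeasure ρ] (J : Set ℝ) (hJ : MeasurableSet J) (h0 : ρ J ≠ 0) :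
    ∀ᵐ V ∂(PP d ν), ∀ᵐ a ∂(PP d ρ), ∀ u : L2 (Site d),
      (∀ ψ, TrueEig (ev V) ψ → ⟪ψ, u⟫_ℂ = 0) → u ∈ closure (Submodule.span ℂ
      {y : L2 (Site d) | ∃ x ∈ {x : Site d | a x ∈ J}, ∃ t : ℝ, y = (ev V).U t (dl x)} :
        Set (L2 (Site d))) := by
  obtain ⟨Nk, hNk, hsp⟩ := spread hev ν
  filter_upwards [hsp] with V hV
  have h2 := gen (ev V) Nk hNk hV ρ Jᶜ hJ.compl (by rwa [compl_compl])
  filter_upwards [h2] with a ha u hu
  refine mem_span (ev V) _ (fun φ hφ h3 => ha φ hφ fun x hx n => h3 x (Set.notMem_compl_iff.1 hx) _) hu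

end Pool.Agent.K7.H96.CYC
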