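import Pool.Agent.K7.H96.NBT.Main

/-! # States which are orthogonal to the eigenvectors -/

set_option autoImplicit false

open MeasureTheory Filter Topology
open scoped BigOperators ENNReal NNReal InnerProductSpace ComplexConjugate

namespace Pool.Agent.K7.H96.CYC

open Pool.Agent.H5R2.NB Pool.Agent.K7.H96.NBT InnerProductSpace

section grp

variable {X : Type} [NormedAddCommGroup X] [InnerProductSpace ℂ X] [CompleteSpace X]

/-- `P` commutes with the group if its range is invariant -/
theorem proj_comm (W : UG X) (M : Submodule ℂ X) [M.HasOrthogonalProjection]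
    (hM : ∀ (t : ℝ), ∀ x ∈ M, W.U t x ∈ M) (t : ℝ) (x : X) :
    M.starProjection (W.U t x) = W.U t (M.starProjection x) := by
  refine Submodule.eq_starProjection_of_mem_of_inner_eq_zero (hM t _ (M.starProjection_apply_mem x))
    fun w hw => ?_
  rw [← map_sub, ANTI.inner_adj]
  exact M.starProjection_inner_eq_zero x _ (hM (-t) w hw)

/-- the eigenvectors of `U t` for all times -/
def TrueEig (W : UG X) (ψ : X) : Prop :=
  ∃ E : ℝ, ∀ t : ℝ, W.U t ψ = Complex.exp (-(Complex.I * t * E)) • ψ

/-- Fourier coefficients along the orbit -/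
noncomputable def fc (W : UG X) (φ : X) (a : ℝ) (k : ℤ) : X :=
  ∫ s in (0 : ℝ)..1, Complex.exp (Complex.I * s * (a + 2 * Real.pi * k)) • W.U s φ

theorem cont_fc (W : UG X) (φ : X) (a : ℝ) (k : ℤ) : Continuous fun s : ℝ =>
    Complex.exp (Complex.I * s * (a + 2 * Real.pi * k)) • W.U s φ := by
  have h1 : Continuous fun s : ℝ => Complex.exp (Complex.I * s * (a + 2 * Real.pi * k)) := by
    fun_prop
  exact h1.smul (W.cont' φ)

theorem fc_eig (W : UG X) (φ : X) (a : ℝ) (hφ : W.U 1 φ = Complex.exp (-(Complex.I * a)) • φ)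
    (k : ℤ) : TrueEig W (fc W φ a k) := by
  refine ⟨a + 2 * Real.pi * k, fun t => ?_⟩
  set g : ℝ → X := fun s => Complex.exp (Complex.I * s * (a + 2 * Real.pi * k)) • W.U s φ with hg
  have hper : Function.Periodic g 1 := by
    intro s
    simp only [hg]
    rw [W.add' s 1, hφ, map_smul, smul_smul]
    congr 1
    rw [← Complex.exp_add]
    have : Complex.I * ((s + 1 : ℝ) : ℂ) * (a + 2 * Real.pi * k) + -(Complex.I * a) =
        Complex.I * s * (a + 2 * Real.pi * k) + k * (2 * Real.pi * Complex.I) := by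
      push_cast
      ring
    rw [this, Complex.exp_add, Complex.exp_int_mul_two_pi_mul_I, mul_one]
  have hcg : Continuous g := cont_fc W φ a k
  have h1 : W.U t (fc W φ a k) = ∫ s in (0 : ℝ)..1, W.U t (g s) := by
    unfold fc
    exact ((W.U t).intervalIntegral_comp_comm (hcg.intervalIntegrable _ _)).symm
  have h2 : ∀ s : ℝ, W.U t (g s) =
      Complex.exp (-(Complex.I * t * (a + 2 * Real.pi * k : ℝ))) • g (s + t) := by
    intro s
    simp only [hg]
    rw [map_smul, ← W.add', smul_smul, ← Complex.exp_add, add_comm t s]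
    congr 2
    push_cast
    ring
  rw [h1]
  simp only [h2]
  rw [intervalIntegral.integral_smul, intervalIntegral.integral_comp_add_right (fun s => g s)]
  congr 1
  have h3 := hper.intervalIntegral_add_eq t 0
  rw [zero_add] at h3 ⊢
  rw [add_comm 1 t]
  exact h3

/-- a state which is orthogonal to the eigenvectors of the generator is orthogonal to the eigenvectors
of `U 1` -/
theorem orth_one (W : UG X) {u : X} (hu : ∀ ψ, TrueEig W ψ → ⟪ψ, u⟫_ℂ = 0) {φ : X} {z : ℂ}
    (hφ : W.U 1 φ = z • φ) : ⟪φ, u⟫_ℂ = 0 := by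
  by_cases h0 : φ = 0
  · rw [h0, inner_zero_left]
  have hz : ‖z‖ = 1 := by
    have h1 := W.norm' 1 φ
    rw [hφ, norm_smul] at h1
    have h2 : 0 < ‖φ‖ := norm_pos_iff.2 h0
    exact mul_right_cancel₀ h2.ne' (by rw [h1, one_mul])
  obtain ⟨a, ha⟩ : ∃ a : ℝ, z = Complex.exp (-(Complex.I * a)) := by
    refine ⟨-Complex.arg z, ?_⟩
    conv_lhs => rw [← Complex.norm_mul_exp_arg_mul_I z, hz]
    push_cast
    rw [one_mul]
    congr 1
    ring
  rw [ha] at hφ
  -- the periodic function
  set f : ℝ → ℂ := fun s => ⟪u, Complex.exp (Complex.I * s * a) • W.U s φ⟫_ℂ with hf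
  have hcf : Continuous f := by
    have h1 : Continuous fun s : ℝ => Complex.exp (Complex.I * s * a) • W.U s φ := by
      have h2 : Continuous fun s : ℝ => Complex.exp (Complex.I * s * a) := by fun_prop
      exact h2.smul (W.cont' φ)
    exact continuous_const.inner h1
  have hper : Function.Periodic f 1 := by
    intro s
    simp only [hf]
    rw [W.add' s 1, hφ, map_smul, smul_smul]
    congr 2
    rw [← Complex.exp_add]
    congr 1
    push_cast
    ring
  have : Fact ((0 : ℝ) < 1) := ⟨one_pos⟩
  let F : C(AddCircle (1 : ℝ), ℂ) := ⟨hper.lift, by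
    exact continuous_coinduced_dom.2 hcf⟩
  have hF : ∀ s : ℝ, F (s : AddCircle (1 : ℝ)) = f s := fun s => rfl
  have hcoef : ∀ k : ℤ, fourierCoeff F k = 0 := by
    intro k
    rw [fourierCoeff_eq_intervalIntegral _ _ 0]
    have h1 : ∀ s : ℝ, fourier (-k) (s : AddCircle (1 : ℝ)) • F (s : AddCircle (1 : ℝ)) =
        ⟪u, Complex.exp (Complex.I * s * (a + 2 * Real.pi * ((-k : ℤ)))) • W.U s φ⟫_ℂ := by
      intro s
      rw [hF, fourier_coe_apply]
      simp only [hf]
      rw [inner_smul_right, inner_smul_right, smul_eq_mul, ← mul_assoc, ← Complex.exp_add]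
      congr 2
      push_cast
      ring
    simp only [h1]
    rw [zero_add, ← ANTI.inner_integral u _ (cont_fc W φ a (-k))]
    have h2 := hu _ (fc_eig W φ a hφ (-k))
    have h3 : ⟪u, fc W φ a (-k)⟫_ℂ = 0 := by
      rw [← inner_conj_symm, h2, map_zero]
    unfold fc at h3
    rw [h3, smul_zero]
  have hs : Summable (fourierCoeff F) := by
    have : fourierCoeff F = fun _ => 0 := funext hcoef
    rw [this]
    exact summable_zero
  have h4 := has_pointwise_sum_fourier_series_of_summable hs ((0 : ℝ) : AddCircle (1 : ℝ))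
  simp only [hcoef, zero_mul, zero_smul] at h4
  have h5 : F ((0 : ℝ) : AddCircle (1 : ℝ)) = 0 := h4.unique hasSum_zero
  rw [hF] at h5
  simp only [hf] at h5
  rw [W.zero'] at h5
  have h6 : ⟪u, φ⟫_ℂ = 0 := by
    simpa using h5
  rw [← inner_conj_symm, h6, map_zero]

end grp

variable {d : ℕ}

/-- the states which are orthogonal to the eigenvectors are in the continuous subspace -/
theorem cont_of_orth (W : UG (L2 (Site d))) {u : L2 (Site d)}
    (hu : ∀ (φ : L2 (Site d)) (z : ℂ), W.U 1 φ = z • φ → ⟪φ, u⟫_ℂ = 0) (e : L2 (Site d)) :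
    Tendsto (fun N => av W e N u) atTop (𝓝 0) := by
  set M : Submodule ℂ (L2 (Site d)) :=
    (Submodule.span ℂ {φ : L2 (Site d) | ∃ z : ℂ, W.U 1 φ = z • φ}).topologicalClosure with hM
  haveI : CompleteSpace M := (Submodule.isClosed_topologicalClosure _).completeSpace_coe
  have hinv : ∀ t : ℝ, ∀ x ∈ M, W.U t x ∈ M := by
    intro t x hx
    have h1 : ∀ y ∈ Submodule.span ℂ {φ : L2 (Site d) | ∃ z : ℂ, W.U 1 φ = z • φ},
        W.U t y ∈ Submodule.span ℂ {φ : L2 (Site d) | ∃ z : ℂ, W.U 1 φ = z • φ} := by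
      intro y hy
      induction hy using Submodule.span_induction with
      | mem y hy =>
        obtain ⟨z, hz⟩ := hy
        refine Submodule.subset_span ⟨z, ?_⟩
        rw [← W.add', add_comm, W.add', hz, map_smul]
      | zero => rw [map_zero]; exact Submodule.zero_mem _
      | add a b _ _ ha hb => rw [map_add]; exact Submodule.add_mem _ ha hb
      | smul c a _ ha => rw [map_smul]; exact Submodule.smul_mem _ _ ha
    have h2 : Set.MapsTo (W.U t)
        (Submodule.span ℂ {φ : L2 (Site d) | ∃ z : ℂ, W.U 1 φ = z • φ} : Set (L2 (Site d)))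
        (Submodule.span ℂ {φ : L2 (Site d) | ∃ z : ℂ, W.U 1 φ = z • φ} : Set (L2 (Site d))) :=
      fun y hy => h1 y hy
    exact h2.closure (W.U t).continuous hx
  set P := M.starProjection with hP
  set B : L2 (Site d) →L[ℂ] L2 (Site d) := ContinuousLinearMap.id ℂ (L2 (Site d)) - P with hB
  have hBapp : ∀ x, B x = x - P x := fun x => rfl
  have hPs : ∀ x y, ⟪P x, y⟫_ℂ = ⟪x, P y⟫_ℂ := fun x y =>
    M.inner_starProjection_left_eq_right x y
  have hBu : B u = u := by
    have h1 : P u = 0 := by
      refine ext_inner_left ℂ fun y => ?_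
      rw [← hPs, inner_zero_right]
      have h2 : P y ∈ M := M.starProjection_apply_mem y
      have h3 : ∀ w ∈ Submodule.span ℂ {φ : L2 (Site d) | ∃ z : ℂ, W.U 1 φ = z • φ},
          ⟪w, u⟫_ℂ = 0 := by
        intro w hw
        induction hw using Submodule.span_induction with
        | mem y hy =>
          obtain ⟨z, hz⟩ := hy
          exact hu y z hz
        | zero => rw [inner_zero_left]
        | add a b _ _ ha hb => rw [inner_add_left, ha, hb, add_zero]
        | smul c a _ ha => rw [inner_smul_left, ha, mul_zero]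
      have h4 : IsClosed {w : L2 (Site d) | ⟪w, u⟫_ℂ = 0} :=
        isClosed_eq (by fun_prop) continuous_const
      exact closure_minimal (fun w hw => h3 w hw) h4 h2
    rw [hBapp, h1, sub_zero]
  have h := av_range W B (fun x y => by
      rw [hBapp, hBapp, inner_sub_left, inner_sub_right, hPs]) (fun x => by
      rw [hBapp, hBapp, map_sub, hP, proj_comm W M hinv]) (fun φ z hφ => by
      have h1 : φ ∈ M := Submodule.le_topologicalClosure _ (Submodule.subset_span ⟨z, hφ⟩)
      rw [hBapp, hP, Submodule.starProjection_eq_self_iff.2 h1, sub_self]) e u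
  rwa [hBu] at h

theorem cont_of_true (W : UG (L2 (Site d))) {u : L2 (Site d)}
    (hu : ∀ ψ, TrueEig W ψ → ⟪ψ, u⟫_ℂ = 0) (e : L2 (Site d)) :
    Tendsto (fun N => av W e N u) atTop (𝓝 0) :=
  cont_of_orth W (fun _ _ h => orth_one W hu h) e

/-- the closed span of the orbits of the sites of a set contains the states which are orthogonal to
the eigenvectors if no such state avoids these sites for all times -/
theorem mem_span (W : UG (L2 (Site d))) (A : Set (Site d))
    (h : ∀ φ : L2 (Site d), (∀ x : Site d, Tendsto (fun N => av W (dl x) N φ) atTop (𝓝 0)) →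
      (∀ x ∈ A, ∀ t : ℝ, (W.U t φ) x = 0) → φ = 0) {u : L2 (Site d)}
    (hu : ∀ ψ, TrueEig W ψ → ⟪ψ, u⟫_ℂ = 0) :
    u ∈ closure (Submodule.span ℂ {y : L2 (Site d) | ∃ x ∈ A, ∃ t : ℝ, y = W.U t (dl x)} :
      Set (L2 (Site d))) := by
  set S : Submodule ℂ (L2 (Site d)) :=
    Submodule.span ℂ {y : L2 (Site d) | ∃ x ∈ A, ∃ t : ℝ, y = W.U t (dl x)} with hS
  set M := S.topologicalClosure with hM
  haveI : CompleteSpace M := (Submodule.isClosed_topologicalClosure _).completeSpace_coe
  have hinv : ∀ t : ℝ, ∀ x ∈ M, W.U t x ∈ M := by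
    intro t x hx
    have h1 : ∀ y ∈ S, W.U t y ∈ S := by
      intro y hy
      rw [hS] at hy ⊢
      induction hy using Submodule.span_induction with
      | mem y hy =>
        obtain ⟨x, hx, s, rfl⟩ := hy
        refine Submodule.subset_span ⟨x, hx, t + s, ?_⟩
        rw [W.add']
      | zero => rw [map_zero]; exact Submodule.zero_mem _
      | add a b _ _ ha hb => rw [map_add]; exact Submodule.add_mem _ ha hb
      | smul c a _ ha => rw [map_smul]; exact Submodule.smul_mem _ _ ha
    have h2 : Set.MapsTo (W.U t) (S : Set (L2 (Site d))) (S : Set (L2 (Site d))) :=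
      fun y hy => h1 y hy
    exact h2.closure (W.U t).continuous hx
  set P := M.starProjection with hP
  have hPs : ∀ x y, ⟪P x, y⟫_ℂ = ⟪x, P y⟫_ℂ := fun x y =>
    M.inner_starProjection_left_eq_right x y
  have h1 : u - P u = 0 := by
    refine h _ (fun x => cont_of_true W (fun ψ hψ => ?_) (dl x)) fun x hx t => ?_
    · rw [inner_sub_right, hu ψ hψ, ← hPs, zero_sub, neg_eq_zero]
      refine hu _ ?_
      obtain ⟨E, hE⟩ := hψ
      refine ⟨E, fun t => ?_⟩
      rw [hP, ← proj_comm W M hinv, hE, map_smul]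
    · have h3 : W.U (-t) (dl x) ∈ M :=
        Submodule.le_topologicalClosure _ (Submodule.subset_span ⟨x, hx, -t, rfl⟩)
      have h4 := M.starProjection_inner_eq_zero u _ h3
      rw [← inner_conj_symm, ANTI.inner_adj, neg_neg, ANTI.dl_inner] at h4
      exact (map_eq_zero _).1 h4
  have h2 : u = P u := sub_eq_zero.1 h1
  have h3 : P u ∈ M := M.starProjection_apply_mem u
  rw [← h2] at h3
  exact h3

end Pool.Agent.K7.H96.CYC
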